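import Pool.Agent.Helper2.FX.StG

set_option autoImplicit false

/-!
# Project FX, module TLU: tameness is local
-/

namespace Pool.Agent.Helper57.FX

open Set Metric Pool.Agent.Helper84.FX Pool.Agent.Helper2.FX

theorem TT_inter {E : Type} [TopologicalSpace E] {G : Type} [NormedAddCommGroup G]
    [NormedSpace ℝ G] (M O : Set E) (g : E → G) :
    TT (M ∩ O) g = TT M g ∩ Prod.fst ⁻¹' O := by
  ext q
  simp only [TT, mem_setOf_eq, mem_inter_iff, mem_preimage]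
  tauto

theorem Mp_fst {E : Type} [TopologicalSpace E] {G : Type} [NormedAddCommGroup G]
    [NormedSpace ℝ G] (M : Set E) (g : E → G) : Mp (TT M g) M Prod.fst :=
  ⟨continuous_fst.continuousOn, fun _ hq => hq.1⟩

theorem Mp_sg {E : Type} [TopologicalSpace E] {G : Type} [NormedAddCommGroup G]
    [NormedSpace ℝ G] (M : Set E) (g : E → G) (hg : ContinuousOn g M) :
    Mp (M ∩ {x | g x ≠ 0}) (TT M g ∩ {q | q.2 ≠ 0}) (sg g) := by
  have hg' : ContinuousOn g (M ∩ {x | g x ≠ 0}) := hg.mono inter_subset_left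
  refine ⟨?_, ?_⟩
  · have h1 : ContinuousOn (fun x => ‖g x‖⁻¹) (M ∩ {x | g x ≠ 0}) :=
      hg'.norm.inv₀ (fun x hx => norm_ne_zero_iff.2 hx.2)
    exact continuousOn_id.prodMk (h1.smul hg')
  · intro x hx
    have hx0 : g x ≠ 0 := hx.2
    have hn : ‖g x‖ ≠ 0 := norm_ne_zero_iff.2 hx0
    refine ⟨⟨hx.1, ?_, ?_⟩, ?_⟩
    · show ‖‖g x‖⁻¹ • g x‖ ≤ 1
      rw [norm_smul, norm_inv, norm_norm, inv_mul_cancel₀ hn]
    · show g x = ‖g x‖ • (‖g x‖⁻¹ • g x)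
      rw [smul_smul, mul_inv_cancel₀ hn, one_smul]
    · show ‖g x‖⁻¹ • g x ≠ 0
      exact smul_ne_zero (inv_ne_zero hn) hx0

theorem hTLU : StLGI → StTLU := by
  intro hLGI E _ G _ _ M g U hg hUo hUi hMU hT
  refine ⟨hg, ?_, ?_⟩
  · refine hLGI (E × G) E (TT M g) M Prod.fst U (Mp_fst M g) hUo hUi hMU (fun O hO => ?_)
    have h := (hT O hO).2.1
    rwa [TT_inter] at h
  · refine hLGI E (E × G) (M ∩ {x | g x ≠ 0}) (TT M g ∩ {q | q.2 ≠ 0}) (sg g)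
      {V | ∃ O ∈ U, V = Prod.fst ⁻¹' O} (Mp_sg M g hg) ?_ ?_ ?_ ?_
    · rintro _ ⟨O, hO, rfl⟩
      exact (hUo O hO).preimage continuous_fst
    · rintro _ ⟨O, hO, rfl⟩ _ ⟨O', hO', rfl⟩
      exact ⟨O ∩ O', hUi O hO O' hO', preimage_inter.symm⟩
    · rintro q ⟨hq, -⟩
      obtain ⟨O, hO, hqO⟩ := hMU hq.1
      exact ⟨Prod.fst ⁻¹' O, ⟨O, hO, rfl⟩, hqO⟩
    · rintro _ ⟨O, hO, rfl⟩
      have h := (hT O hO).2.2
      rw [TT_inter] at h
      have e1 : M ∩ {x | g x ≠ 0} ∩ sg g ⁻¹' (Prod.fst ⁻¹' O) = M ∩ O ∩ {x | g x ≠ 0} := by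
        ext x
        simp only [sg, mem_inter_iff, mem_setOf_eq, mem_preimage]
        tauto
      have e2 : TT M g ∩ {q | q.2 ≠ 0} ∩ Prod.fst ⁻¹' O =
          TT M g ∩ Prod.fst ⁻¹' O ∩ {q | q.2 ≠ 0} := by
        ext q
        simp only [mem_inter_iff, mem_setOf_eq, mem_preimage]
        tauto
      rw [e1, e2]
      exact h

end Pool.Agent.Helper57.FX
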