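import Pool.Agent.Helper84.FX.StX

/-!
# Project FX, module TWS: tameness of `σ` on the part `ρ ≠ 0` of `W`
-/

set_option autoImplicit false

namespace Pool.Agent.Helper57.FX

open Set Pool.Agent.Helper84.FX Pool.Agent.Helper72.FX

/-- Surjectivity of the real derivative from derivatives along complex lines. -/
theorem surj_of_line {E V : Type} [NormedAddCommGroup E] [NormedSpace ℂ E] [NormedSpace ℝ E]
    [IsScalarTower ℝ ℂ E] [NormedAddCommGroup V] [NormedSpace ℂ V] [NormedSpace ℝ V]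
    [IsScalarTower ℝ ℂ V] (F : E → V) (x : E) (hF : DifferentiableAt ℂ F x)
    (h : ∀ w : V, ∃ v : E, HasDerivAt (fun s : ℂ => F (x + s • v)) w 0) :
    Function.Surjective (fderiv ℝ F x) := by
  intro w
  obtain ⟨v, hv⟩ := h w
  refine ⟨v, ?_⟩
  rw [hF.fderiv_restrictScalars ℝ]
  have h1 : HasDerivAt (fun s : ℂ => F (x + s • v)) (fderiv ℂ F x v) 0 :=
    hF.hasFDerivAt.hasLineDerivAt v
  exact h1.unique hv

/-- The derivative at 0 of a quadratic polynomial. -/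
theorem hasDerivAt_quad (A B C : ℂ) :
    HasDerivAt (fun s : ℂ => A + s * B + s ^ 2 * C) B 0 := by
  have h1 : HasDerivAt (fun s : ℂ => s * B) (1 * B) 0 := (hasDerivAt_id (0 : ℂ)).mul_const B
  have h2 : HasDerivAt (fun s : ℂ => s ^ 2 * C) ((2 : ℕ) * (0 : ℂ) ^ (2 - 1) * C) 0 :=
    (hasDerivAt_pow 2 (0 : ℂ)).mul_const C
  have h3 := (h1.const_add A).add h2
  have h4 : (1 * B + (2 : ℕ) * (0 : ℂ) ^ (2 - 1) * C) = B := by norm_num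
  rw [h4] at h3
  exact h3

theorem cd_comp (f : ℂ × ℂ × ℂ → ℂ) (hf : ContDiff ℂ (⊤ : ℕ∞) f) :
    ContDiff ℂ (⊤ : ℕ∞) (fun z : Fin 10 → ℂ => f (z 0, z 1, z 2)) :=
  hf.comp ((contDiff_apply ℂ ℂ 0).prodMk ((contDiff_apply ℂ ℂ 1).prodMk (contDiff_apply ℂ ℂ 2)))

theorem EE1_eq : EE1 = fun z : Fin 10 → ℂ => nu (z 0) (z 1) (z 2) - z 3 * z 4 - z 5 * z 6 := by
  funext z
  unfold EE1 E1
  with_reducible rfl

theorem EE2_eq : EE2 = fun z : Fin 10 → ℂ =>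
    -(z 6 * z 4 * kappa (z 0) (z 1) (z 2)) + (z 8 - z 7) + z 5 *
      (z 2 * z 6 * kx (z 0) (z 1) (z 2) * z 8 + z 2 * z 6 * ky (z 0) (z 1) (z 2) * z 7 +
        z 2 * z 3 * z 7 * z 8 - 2 * z 6 * kz (z 0) (z 1) (z 2) * z 9 - z 3 * z 9 ^ 2) := by
  funext z
  unfold EE2 E2
  with_reducible rfl

theorem cd_EE1 (N : (Fin 10 → ℂ) → ℂ) (hN : ContDiff ℂ (⊤ : ℕ∞) N) :
    ContDiff ℂ (⊤ : ℕ∞) (fun z : Fin 10 → ℂ => N z - z 3 * z 4 - z 5 * z 6) := by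
  have a : ∀ i : Fin 10, ContDiff ℂ (⊤ : ℕ∞) (fun z : Fin 10 → ℂ => z i) :=
    fun i => contDiff_apply ℂ ℂ i
  exact (hN.sub ((a 3).mul (a 4))).sub ((a 5).mul (a 6))

theorem cd_EE2 (C X Y Z : (Fin 10 → ℂ) → ℂ) (hC : ContDiff ℂ (⊤ : ℕ∞) C)
    (hX : ContDiff ℂ (⊤ : ℕ∞) X) (hY : ContDiff ℂ (⊤ : ℕ∞) Y) (hZ : ContDiff ℂ (⊤ : ℕ∞) Z) :
    ContDiff ℂ (⊤ : ℕ∞) (fun z : Fin 10 → ℂ => -(z 6 * z 4 * C z) + (z 8 - z 7) + z 5 *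
      (z 2 * z 6 * X z * z 8 + z 2 * z 6 * Y z * z 7 +
        z 2 * z 3 * z 7 * z 8 - 2 * z 6 * Z z * z 9 - z 3 * z 9 ^ 2)) := by
  have a : ∀ i : Fin 10, ContDiff ℂ (⊤ : ℕ∞) (fun z : Fin 10 → ℂ => z i) :=
    fun i => contDiff_apply ℂ ℂ i
  have c2 : ContDiff ℂ (⊤ : ℕ∞) (fun _ : Fin 10 → ℂ => (2 : ℂ)) := contDiff_const
  have t1 : ContDiff ℂ (⊤ : ℕ∞) (fun z : Fin 10 → ℂ => z 2 * z 6 * X z * z 8) :=
    (((a 2).mul (a 6)).mul hX).mul (a 8)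
  have t2 : ContDiff ℂ (⊤ : ℕ∞) (fun z : Fin 10 → ℂ => z 2 * z 6 * Y z * z 7) :=
    (((a 2).mul (a 6)).mul hY).mul (a 7)
  have t3 : ContDiff ℂ (⊤ : ℕ∞) (fun z : Fin 10 → ℂ => z 2 * z 3 * z 7 * z 8) :=
    (((a 2).mul (a 3)).mul (a 7)).mul (a 8)
  have t4 : ContDiff ℂ (⊤ : ℕ∞) (fun z : Fin 10 → ℂ => 2 * z 6 * Z z * z 9) :=
    ((c2.mul (a 6)).mul hZ).mul (a 9)
  have t5 : ContDiff ℂ (⊤ : ℕ∞) (fun z : Fin 10 → ℂ => z 3 * z 9 ^ 2) :=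
    (a 3).mul ((a 9).pow 2)
  have t0 : ContDiff ℂ (⊤ : ℕ∞)
      (fun z : Fin 10 → ℂ => -(z 6 * z 4 * C z) + (z 8 - z 7)) :=
    (((a 6).mul (a 4)).mul hC).neg.add ((a 8).sub (a 7))
  exact t0.add ((a 5).mul ((((t1.add t2).add t3).sub t4).sub t5))

/-- `EE1` and `EE2` are smooth. -/
theorem contDiff_EE (hk : StKSM) : ContDiff ℂ (⊤ : ℕ∞) EE1 ∧ ContDiff ℂ (⊤ : ℕ∞) EE2 := by
  obtain ⟨hx, hy, hz, hc, hn⟩ := hk
  constructor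
  · rw [EE1_eq]
    exact cd_EE1 (fun z => nu (z 0) (z 1) (z 2)) (cd_comp _ hn)
  · rw [EE2_eq]
    exact cd_EE2 (fun z => kappa (z 0) (z 1) (z 2)) (fun z => kx (z 0) (z 1) (z 2))
      (fun z => ky (z 0) (z 1) (z 2)) (fun z => kz (z 0) (z 1) (z 2))
      (cd_comp _ hc) (cd_comp _ hx) (cd_comp _ hy) (cd_comp _ hz)

/-- The triangular system. -/
theorem line_TWS (x : Fin 10 → ℂ) (h3 : x 3 ≠ 0) (h5 : x 5 = 0) (w : (ℂ × ℂ) × ℂ) :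
    ∃ v : Fin 10 → ℂ, HasDerivAt
      (fun s : ℂ => ((EE1 (x + s • v), EE2 (x + s • v)), (x + s • v) 5)) w 0 := by
  obtain ⟨⟨α, β⟩, δ⟩ := w
  obtain ⟨cn, hcn⟩ : ∃ cn : ℂ, x 3 * cn = -(α + δ * x 6) :=
    ⟨-(α + δ * x 6) / x 3, by field_simp⟩
  obtain ⟨G, hG⟩ : ∃ G : ℂ, G = x 2 * x 6 * kx (x 0) (x 1) (x 2) * x 8 +
      x 2 * x 6 * ky (x 0) (x 1) (x 2) * x 7 + x 2 * x 3 * x 7 * x 8 -
      2 * x 6 * kz (x 0) (x 1) (x 2) * x 9 - x 3 * x 9 ^ 2 := ⟨_, rfl⟩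
  obtain ⟨cy, hcy⟩ : ∃ cy : ℂ,
      cy = β + x 6 * cn * kappa (x 0) (x 1) (x 2) - δ * G := ⟨_, rfl⟩
  refine ⟨![0, 0, 0, 0, cn, δ, 0, 0, cy, 0], ?_⟩
  have p0 : ∀ s : ℂ, (x + s • ![0, 0, 0, 0, cn, δ, 0, 0, cy, 0]) 0 = x 0 := by
    intro s; simp
  have p1 : ∀ s : ℂ, (x + s • ![0, 0, 0, 0, cn, δ, 0, 0, cy, 0]) 1 = x 1 := by
    intro s; simp
  have p2 : ∀ s : ℂ, (x + s • ![0, 0, 0, 0, cn, δ, 0, 0, cy, 0]) 2 = x 2 := by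
    intro s; simp
  have p3 : ∀ s : ℂ, (x + s • ![0, 0, 0, 0, cn, δ, 0, 0, cy, 0]) 3 = x 3 := by
    intro s; simp
  have p4 : ∀ s : ℂ, (x + s • ![0, 0, 0, 0, cn, δ, 0, 0, cy, 0]) 4 = x 4 + s * cn := by
    intro s; simp
  have p5 : ∀ s : ℂ, (x + s • ![0, 0, 0, 0, cn, δ, 0, 0, cy, 0]) 5 = x 5 + s * δ := by
    intro s; simp
  have p6 : ∀ s : ℂ, (x + s • ![0, 0, 0, 0, cn, δ, 0, 0, cy, 0]) 6 = x 6 := by
    intro s; simp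
  have p7 : ∀ s : ℂ, (x + s • ![0, 0, 0, 0, cn, δ, 0, 0, cy, 0]) 7 = x 7 := by
    intro s; simp
  have p8 : ∀ s : ℂ, (x + s • ![0, 0, 0, 0, cn, δ, 0, 0, cy, 0]) 8 = x 8 + s * cy := by
    intro s; simp
  have p9 : ∀ s : ℂ, (x + s • ![0, 0, 0, 0, cn, δ, 0, 0, cy, 0]) 9 = x 9 := by
    intro s; simp
  have e1 : (fun s : ℂ => EE1 (x + s • ![0, 0, 0, 0, cn, δ, 0, 0, cy, 0])) =
      fun s : ℂ => EE1 x + s * α + s ^ 2 * 0 := by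
    funext s
    unfold EE1 E1
    rw [p0, p1, p2, p3, p4, p5, p6]
    linear_combination (-s) * hcn
  have e2 : (fun s : ℂ => EE2 (x + s • ![0, 0, 0, 0, cn, δ, 0, 0, cy, 0])) =
      fun s : ℂ => EE2 x + s * β + s ^ 2 * (δ * cy * (x 2 * x 6 * kx (x 0) (x 1) (x 2) +
        x 2 * x 3 * x 7)) := by
    funext s
    unfold EE2 E2
    rw [p0, p1, p2, p3, p4, p5, p6, p7, p8, p9, h5]
    linear_combination s * hcy - s * δ * hG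
  have e3 : (fun s : ℂ => (x + s • ![0, 0, 0, 0, cn, δ, 0, 0, cy, 0]) 5) =
      fun s : ℂ => x 5 + s * δ + s ^ 2 * 0 := by
    funext s
    rw [p5]; ring
  have d1 := hasDerivAt_quad (EE1 x) α 0
  have d2 := hasDerivAt_quad (EE2 x) β (δ * cy * (x 2 * x 6 * kx (x 0) (x 1) (x 2) +
        x 2 * x 3 * x 7))
  have d3 := hasDerivAt_quad (x 5) δ 0
  rw [← e1] at d1
  rw [← e2] at d2
  rw [← e3] at d3
  exact (d1.prodMk d2).prodMk d3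

theorem hTWS : StTMC → StKSM → StTWS := by
  intro hT hk U hU _
  obtain ⟨c1, c2⟩ := contDiff_EE hk
  have c5 : ContDiff ℂ (⊤ : ℕ∞) (fun z : Fin 10 → ℂ => z 5) := contDiff_apply ℂ ℂ 5
  have hc : ContDiff ℂ (⊤ : ℕ∞) (fun z : Fin 10 → ℂ => ((EE1 z, EE2 z), z 5)) :=
    (c1.prodMk c2).prodMk c5
  have hΩ : IsOpen {z : Fin 10 → ℂ | z 2 ∈ U ∧ z 3 ≠ 0} :=
    (hU.preimage (continuous_apply 2)).inter (isOpen_ne.preimage (continuous_apply 3))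
  have key := hT (Fin 10 → ℂ) ℂ (ℂ × ℂ) {z : Fin 10 → ℂ | z 2 ∈ U ∧ z 3 ≠ 0}
    (fun z => (EE1 z, EE2 z)) (fun z => z 5) hΩ
    (((c1.prodMk c2).restrict_scalars ℝ).of_le (by exact_mod_cast le_top)).contDiffOn
    ((c5.restrict_scalars ℝ).of_le (by exact_mod_cast le_top)).contDiffOn
    (by
      intro x hx _ hx5
      exact surj_of_line (fun z : Fin 10 → ℂ => ((EE1 z, EE2 z), z 5)) x
        (hc.differentiable (by simp) x) (fun w => line_TWS x hx.2 hx5 w))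
  have hs : {z : Fin 10 → ℂ | z ∈ WW U ∧ z 3 ≠ 0} =
      {z | z ∈ {z : Fin 10 → ℂ | z 2 ∈ U ∧ z 3 ≠ 0} ∧ (EE1 z, EE2 z) = 0} := by
    ext z
    simp only [WW, Set.mem_ofPred_eq, Prod.mk_eq_zero]
    tauto
  rw [hs]
  exact key

end Pool.Agent.Helper57.FX
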